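import Pool.Agent.H832.TA.Edge

/-!
Britton's lemma from the derivation, and free subgroups.
-/

namespace Pool.Agent.H832.TA

open Pool.Agent.Helper386.PD3
open scoped Matrix

noncomputable section

variable {G : Type} [Group G]

/-- A derivation counting crossings: `E ≤ B`, `t E t⁻¹ ≤ B`. -/
structure Cross (t : G) (E B : Subgroup G) (F : G → ((G ⧸ E) →₀ ℤ)) : Prop where
  le : E ≤ B
  conj : ∀ x ∈ E, t * x * t⁻¹ ∈ B
  cd : CD E F
  ft : F t = Finsupp.single (t : G ⧸ E) 1
  fB : ∀ x ∈ B, F x = 0

/-- the value of a letter -/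
def val (t : G) (x : Bool × G) : G := (if x.1 then t else t⁻¹) * x.2

/-- the position of the edge crossed by a letter -/
def pos (t : G) (x : Bool × G) : G := if x.1 then t else 1

/-- no pinch -/
def Rd (t : G) (E : Subgroup G) (x y : Bool × G) : Prop :=
  ¬ (x.1 = true ∧ x.2 ∈ E ∧ y.1 = false) ∧ ¬ (x.1 = false ∧ t⁻¹ * x.2 * t ∈ E ∧ y.1 = true)

/-- the product of a word -/
def pw (t : G) (L : List (Bool × G)) : G := (L.map (val t)).prod

theorem pw_nil (t : G) : pw t [] = 1 := rfl
theorem pw_cons (t : G) (x : Bool × G) (L : List (Bool × G)) : pw t (x :: L) = val t x * pw t L :=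
  List.prod_cons

theorem Cross.F_val {t : G} {E B : Subgroup G} {F : G → ((G ⧸ E) →₀ ℤ)} (h : Cross t E B F)
    {x : Bool × G} (hx : x.2 ∈ B) :
    F (val t x) = Finsupp.single ((pos t x : G) : G ⧸ E) (if x.1 then 1 else -1) := by
  obtain ⟨e, g⟩ := x
  cases e
  · change F (t⁻¹ * g) = Finsupp.single ((1 : G) : G ⧸ E) (-1)
    rw [h.cd, h.fB g hx, map_zero, add_zero, h.cd.inv, h.ft, tr_single, inv_mul_cancel,
      ← Finsupp.single_neg]
  · change F (t * g) = Finsupp.single ((t : G) : G ⧸ E) 1
    rw [h.cd, h.fB g hx, map_zero, add_zero, h.ft]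

theorem Cross.exists_split {t : G} {E B : Subgroup G} {F : G → ((G ⧸ E) →₀ ℤ)}
    (h : Cross t E B F) (L : List (Bool × G)) (hL : ∀ x ∈ L, x.2 ∈ B) (y : G ⧸ E)
    (hy : F (pw t L) y ≠ 0) :
    ∃ L₁ x L₂, L = L₁ ++ x :: L₂ ∧ y = ((pw t L₁ * pos t x : G) : G ⧸ E) := by
  classical
  induction L generalizing y with
  | nil =>
    rw [pw_nil, h.cd.one] at hy
    exact absurd rfl hy
  | cons x L ih =>
    rw [pw_cons, h.cd, h.F_val (hL x (List.mem_cons_self)), Finsupp.add_apply] at hy
    by_cases h1 : y = ((pos t x : G) : G ⧸ E)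
    · exact ⟨[], x, L, rfl, by rw [pw_nil, one_mul, h1]⟩
    · rw [Finsupp.single_apply, if_neg (fun h' => h1 h'.symm), zero_add, tr_apply] at hy
      obtain ⟨L₁, z, L₂, h2, h3⟩ := ih (fun z hz => hL z (List.mem_cons_of_mem _ hz)) _ hy
      refine ⟨x :: L₁, z, L₂, by rw [h2]; rfl, ?_⟩
      have h4 : y = val t x • ((val t x)⁻¹ • y) := by rw [smul_inv_smul]
      rw [h4, h3, pw_cons, mul_assoc]
      rfl

theorem Cross.britton {t : G} {E B : Subgroup G} {F : G → ((G ⧸ E) →₀ ℤ)} (h : Cross t E B F) :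
    ∀ (n : ℕ) (L : List (Bool × G)), L.length ≤ n → L ≠ [] → (∀ x ∈ L, x.2 ∈ B) →
      L.IsChain (Rd t E) → pw t L ∉ B := by
  classical
  intro n
  induction n with
  | zero =>
    intro L hn hne
    exact absurd (List.length_eq_zero_iff.1 (Nat.le_zero.1 hn)) hne
  | succ n ih =>
    intro L hn hne hL hc hB
    obtain ⟨x, L', rfl⟩ := List.exists_cons_of_ne_nil hne
    have hx : x.2 ∈ B := hL x List.mem_cons_self
    have hL' : ∀ z ∈ L', z.2 ∈ B := fun z hz => hL z (List.mem_cons_of_mem _ hz)
    have h1 := h.fB _ hB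
    rw [pw_cons, h.cd, h.F_val hx] at h1
    have h2 := DFunLike.congr_fun h1 ((pos t x : G) : G ⧸ E)
    rw [Finsupp.add_apply, Finsupp.single_eq_same, tr_apply, Finsupp.zero_apply] at h2
    have h3 : F (pw t L') ((val t x)⁻¹ • ((pos t x : G) : G ⧸ E)) ≠ 0 := by
      intro h4
      rw [h4, add_zero] at h2
      cases h5 : x.1 <;> simp [h5] at h2
    obtain ⟨L₁, z, L₂, rfl, h4⟩ := h.exists_split L' hL' _ h3
    have h5 : ((pos t x : G) : G ⧸ E) = ((val t x * (pw t L₁ * pos t z) : G) : G ⧸ E) := by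
      have : ((pos t x : G) : G ⧸ E) = val t x • ((val t x)⁻¹ • ((pos t x : G) : G ⧸ E)) := by
        rw [smul_inv_smul]
      rw [this, h4]
      exact rfl
    rw [QuotientGroup.eq] at h5
    have hlen : L₁.length + 1 ≤ n := by
      simp only [List.length_cons, List.length_append] at hn
      omega
    have hc1 : (x :: L₁).IsChain (Rd t E) := by
      have : (x :: L₁) ++ z :: L₂ = x :: (L₁ ++ z :: L₂) := rfl
      rw [← this] at hc
      exact hc.left_of_append
    have hc2 : L₁.IsChain (Rd t E) := hc1.tail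
    have hB1 : ∀ w ∈ x :: L₁, w.2 ∈ B := by
      intro w hw
      apply hL
      have : (x :: L₁) ++ z :: L₂ = x :: (L₁ ++ z :: L₂) := rfl
      rw [← this]
      exact List.mem_append_left _ hw
    have hB2 : ∀ w ∈ L₁, w.2 ∈ B := fun w hw => hB1 w (List.mem_cons_of_mem _ hw)
    -- the prefix including `x`
    have no1 : pw t (x :: L₁) ∉ B :=
      ih (x :: L₁) (by simpa using hlen) (List.cons_ne_nil _ _) hB1 hc1
    have no2 : L₁ ≠ [] → pw t L₁ ∉ B := fun hne' => ih L₁ (by omega) hne' hB2 hc2
    obtain ⟨e, g⟩ := x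
    obtain ⟨e', g'⟩ := z
    have hg : g ∈ B := hx
    cases e <;> cases e'
    · -- false, false
      change (1 : G)⁻¹ * (t⁻¹ * g * (pw t L₁ * 1)) ∈ E at h5
      apply no1
      rw [pw_cons]
      change t⁻¹ * g * pw t L₁ ∈ B
      have e1 : (1 : G)⁻¹ * (t⁻¹ * g * (pw t L₁ * 1)) = t⁻¹ * g * pw t L₁ := by group
      rw [e1] at h5
      exact h.le h5
    · -- false, true
      change (1 : G)⁻¹ * (t⁻¹ * g * (pw t L₁ * t)) ∈ E at h5
      by_cases hne' : L₁ = []
      · subst hne'
        have h6 : Rd t E (false, g) (true, g') := by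
          have : [(false, g)] ++ (true, g') :: L₂ = (false, g) :: ([] ++ (true, g') :: L₂) := rfl
          rw [← this] at hc
          simp only [List.nil_append, List.cons_append, List.isChain_cons_cons] at hc
          exact hc.1
        apply h6.2
        refine ⟨rfl, ?_, rfl⟩
        rw [pw_nil] at h5
        have e1 : (1 : G)⁻¹ * (t⁻¹ * g * (1 * t)) = t⁻¹ * g * t := by group
        rw [e1] at h5
        exact h5
      · apply no2 hne'
        have e1 : (1 : G)⁻¹ * (t⁻¹ * g * (pw t L₁ * t)) = t⁻¹ * (g * pw t L₁) * t := by group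
        rw [e1] at h5
        have h6 := h.conj _ h5
        have e2 : t * (t⁻¹ * (g * pw t L₁) * t) * t⁻¹ = g * pw t L₁ := by group
        rw [e2] at h6
        have h7 := mul_mem (inv_mem hg) h6
        rwa [inv_mul_cancel_left] at h7
    · -- true, false
      change t⁻¹ * (t * g * (pw t L₁ * 1)) ∈ E at h5
      have e1 : t⁻¹ * (t * g * (pw t L₁ * 1)) = g * pw t L₁ := by group
      rw [e1] at h5
      by_cases hne' : L₁ = []
      · subst hne'
        have h6 : Rd t E (true, g) (false, g') := by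
          simp only [List.nil_append, List.isChain_cons_cons] at hc
          exact hc.1
        apply h6.1
        rw [pw_nil, mul_one] at h5
        exact ⟨rfl, h5, rfl⟩
      · apply no2 hne'
        have h7 := mul_mem (inv_mem hg) (h.le h5)
        rwa [inv_mul_cancel_left] at h7
    · -- true, true
      change t⁻¹ * (t * g * (pw t L₁ * t)) ∈ E at h5
      apply no1
      rw [pw_cons]
      change t * g * pw t L₁ ∈ B
      have h6 := h.conj _ h5
      have e1 : t * (t⁻¹ * (t * g * (pw t L₁ * t))) * t⁻¹ = t * g * pw t L₁ := by group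
      rw [e1] at h6
      exact h6

/-! ### Free subgroups -/

section free

variable (t b c : G)

/-- sign of the first syllable of a letter, its two group elements, and its head -/
def hd1 : List (Bool × Bool) → G
  | [] => 1
  | (true, true) :: _ => 1
  | (true, false) :: _ => c⁻¹
  | (false, true) :: _ => 1
  | (false, false) :: _ => b⁻¹

/-- normal form of a word in `U = t b t⁻¹ c` and `V = t⁻¹ c t b` -/
def nf : List (Bool × Bool) → List (Bool × G)
  | [] => []
  | (true, true) :: w => (true, b) :: (false, c * hd1 b c w) :: nf w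
  | (true, false) :: w => (true, b⁻¹) :: (false, 1 * hd1 b c w) :: nf w
  | (false, true) :: w => (false, c) :: (true, b * hd1 b c w) :: nf w
  | (false, false) :: w => (false, c⁻¹) :: (true, 1 * hd1 b c w) :: nf w

/-- the images of the two generators -/
def UV : Bool → G
  | true => t * b * t⁻¹ * c
  | false => t⁻¹ * c * t * b

theorem prod_nf (w : List (Bool × Bool)) :
    (w.map fun x => cond x.2 (UV t b c x.1) (UV t b c x.1)⁻¹).prod = hd1 b c w * pw t (nf b c w) := by
  induction w with
  | nil => simp [hd1, nf, pw_nil]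
  | cons x w ih =>
    rw [List.map_cons, List.prod_cons, ih]
    obtain ⟨i, e⟩ := x
    cases i <;> cases e <;> simp only [hd1, nf, pw_cons, val, UV, cond_true, cond_false,
      if_true, Bool.false_eq_true, if_false] <;> group

variable {t b c}

theorem mem_nf {B : Subgroup G} (hb : b ∈ B) (hc : c ∈ B) (w : List (Bool × Bool)) :
    hd1 b c w ∈ B ∧ ∀ x ∈ nf b c w, x.2 ∈ B := by
  induction w with
  | nil => exact ⟨one_mem _, by simp [nf]⟩
  | cons x w ih =>
    obtain ⟨ih1, ih2⟩ := ih
    obtain ⟨i, e⟩ := x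
    cases i <;> cases e
    · refine ⟨inv_mem hb, ?_⟩
      simp only [nf, List.mem_cons]
      rintro x (rfl | rfl | hx)
      · exact inv_mem hc
      · exact mul_mem (one_mem _) ih1
      · exact ih2 x hx
    · refine ⟨one_mem _, ?_⟩
      simp only [nf, List.mem_cons]
      rintro x (rfl | rfl | hx)
      · exact hc
      · exact mul_mem hb ih1
      · exact ih2 x hx
    · refine ⟨inv_mem hc, ?_⟩
      simp only [nf, List.mem_cons]
      rintro x (rfl | rfl | hx)
      · exact inv_mem hb
      · exact mul_mem (one_mem _) ih1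
      · exact ih2 x hx
    · refine ⟨one_mem _, ?_⟩
      simp only [nf, List.mem_cons]
      rintro x (rfl | rfl | hx)
      · exact hb
      · exact mul_mem hc ih1
      · exact ih2 x hx

theorem chain_nf {E : Subgroup G} (hb : b ∉ E) (hc : t⁻¹ * c * t ∉ E) (w : List (Bool × Bool))
    (hw : FreeGroup.IsReduced w) : (nf b c w).IsChain (Rd t E) := by
  have hb' : b⁻¹ ∉ E := fun h => hb (by simpa using inv_mem h)
  have hc' : t⁻¹ * c⁻¹ * t ∉ E := fun h => hc (by
    have := inv_mem h
    have e : (t⁻¹ * c⁻¹ * t)⁻¹ = t⁻¹ * c * t := by group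
    rwa [e] at this)
  induction w with
  | nil => exact List.isChain_nil
  | cons x w ih =>
    have hw' : FreeGroup.IsReduced w := by
      have := List.IsChain.tail hw
      exact this
    have ih := ih hw'
    cases w with
    | nil =>
      obtain ⟨i, e⟩ := x
      cases i <;> cases e <;> simp [nf, hd1, Rd, hb, hc, hb', hc']
    | cons y w =>
      have hxy : x.1 = y.1 → x.2 = y.2 := (FreeGroup.isReduced_cons_cons.1 hw).1
      obtain ⟨i, e⟩ := x
      obtain ⟨i', e'⟩ := y
      cases i <;> cases e <;> cases i' <;> cases e' <;>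
        first
        | exact absurd (hxy rfl) (by decide)
        | (simp only [nf, hd1] at ih ⊢
           refine List.isChain_cons_cons.2 ⟨?_, List.isChain_cons_cons.2 ⟨?_, ih⟩⟩ <;>
           simp [Rd, hb, hc, hb', hc'])

theorem Cross.free {E B : Subgroup G} {F : G → ((G ⧸ E) →₀ ℤ)} (h : Cross t E B F)
    (hbB : b ∈ B) (hcB : c ∈ B) (hb : b ∉ E) (hc : t⁻¹ * c * t ∉ E) :
    Function.Injective (FreeGroup.lift (UV t b c)) := by
  rw [injective_iff_map_eq_one]
  intro x hx
  by_contra hne
  have h1 : x.toWord ≠ [] := fun h' => hne (FreeGroup.toWord_eq_nil_iff.1 h')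
  have h2 : FreeGroup.lift (UV t b c) x = hd1 b c x.toWord * pw t (nf b c x.toWord) := by
    conv_lhs => rw [← FreeGroup.mk_toWord (x := x)]
    rw [FreeGroup.lift_mk, prod_nf]
  have h3 : nf b c x.toWord ≠ [] := by
    cases h4 : x.toWord with
    | nil => exact absurd h4 h1
    | cons y w =>
      obtain ⟨i, e⟩ := y
      cases i <;> cases e <;> simp [nf]
  obtain ⟨h5, h6⟩ := mem_nf hbB hcB x.toWord
  have h7 := h.britton _ _ le_rfl h3 h6 (chain_nf hb hc _ FreeGroup.isReduced_toWord)
  apply h7
  have h8 : pw t (nf b c x.toWord) = (hd1 b c x.toWord)⁻¹ := by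
    rw [h2] at hx
    exact eq_inv_of_mul_eq_one_right hx
  rw [h8]
  exact inv_mem h5

end free

end

end Pool.Agent.H832.TA
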