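import Pool.Agent.H832.TA.Fp

/-!
Derivations with prescribed values on generators, subject to finitely many relations.
-/

namespace Pool.Agent.H832.TA

open Pool.Agent.Helper386.PD3
open scoped Matrix

noncomputable section

variable {G : Type} [Group G]

/-- derivations with values in a module over the group ring -/
def IsD {M : Type} [AddCommGroup M] [Module (RR G) M] (δ : G → M) : Prop :=
  ∀ g h, δ (g * h) = δ g + gof g • δ h

section

variable {M : Type} [AddCommGroup M] [Module (RR G) M] {δ : G → M}

theorem IsD.one (h : IsD δ) : δ 1 = 0 := by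
  have := h 1 1
  rw [mul_one, gof_one, one_smul] at this
  simpa using this

theorem IsD.inv (h : IsD δ) (g : G) : δ g⁻¹ = -(gof g⁻¹ • δ g) := by
  have := h g⁻¹ g
  rw [inv_mul_cancel, h.one] at this
  exact eq_neg_of_add_eq_zero_left this.symm

end

theorem exists_rel (hfp : Module.FinitePresentation (RR G) (IG G)) {ι : Type} [Fintype ι]
    (a : ι → G) (ha : Subgroup.closure (Set.range a) = ⊤) :
    ∃ S : Finset (ι → RR G), (∀ r ∈ S, ∑ i, r i * (gof (a i) - 1) = 0) ∧
      ∀ (M : Type) [AddCommGroup M] [Module (RR G) M] (c : ι → M),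
        (∀ r ∈ S, ∑ i, r i • c i = 0) → ∃ δ : G → M, IsD δ ∧ ∀ i, δ (a i) = c i := by
  classical
  let Φ0 : (ι → RR G) →ₗ[RR G] RR G :=
    { toFun := fun r => ∑ i, r i * (gof (a i) - 1)
      map_add' := fun x y => by
        rw [← Finset.sum_add_distrib]
        exact Finset.sum_congr rfl fun i _ => add_mul _ _ _
      map_smul' := fun c x => by
        rw [RingHom.id_apply, smul_eq_mul, Finset.mul_sum]
        exact Finset.sum_congr rfl fun i _ => mul_assoc _ _ _ }
  have hΦ0 : ∀ r, Φ0 r = ∑ i, r i * (gof (a i) - 1) := fun r => rfl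
  have hm : ∀ r, Φ0 r ∈ IG G := by
    intro r
    rw [hΦ0]
    exact Submodule.sum_mem _ fun i _ => (IG G).smul_mem (r i) (of_sub_one_mem (a i))
  let Φ : (ι → RR G) →ₗ[RR G] IG G := Φ0.codRestrict (IG G) hm
  have hgen : ∀ g : G, ∃ r, Φ0 r = gof g - 1 := by
    intro g
    have hg : g ∈ Subgroup.closure (Set.range a) := by
      rw [ha]
      trivial
    induction hg using Subgroup.closure_induction with
    | mem x hx =>
      obtain ⟨i, rfl⟩ := hx
      refine ⟨Pi.single i 1, ?_⟩
      rw [hΦ0, Finset.sum_eq_single i]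
      · rw [Pi.single_eq_same, one_mul]
      · intro j _ hj
        rw [Pi.single_eq_of_ne hj, zero_mul]
      · intro h
        exact absurd (Finset.mem_univ i) h
    | one => exact ⟨0, by rw [map_zero, gof_one, sub_self]⟩
    | mul x y _ _ hx hy =>
      obtain ⟨r, hr⟩ := hx
      obtain ⟨s, hs⟩ := hy
      refine ⟨r + gof x • s, ?_⟩
      rw [map_add, map_smul, hr, hs, smul_eq_mul, gof_mul, mul_sub, mul_one]
      abel
    | inv x _ hx =>
      obtain ⟨r, hr⟩ := hx
      refine ⟨-(gof x⁻¹ • r), ?_⟩
      rw [map_neg, map_smul, hr, smul_eq_mul, mul_sub, mul_one, ← gof_mul, inv_mul_cancel, gof_one]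
      abel
  have hs : Function.Surjective Φ := by
    have h1 : LinearMap.range Φ0 = IG G := by
      apply le_antisymm
      · rintro _ ⟨r, rfl⟩
        exact hm r
      · rw [IG_eq_span, Submodule.span_le]
        rintro _ ⟨g, rfl⟩
        exact hgen g
    rintro ⟨y, hy⟩
    rw [← h1] at hy
    obtain ⟨r, hr⟩ := hy
    exact ⟨r, Subtype.ext hr⟩
  obtain ⟨S, hS⟩ := Module.FinitePresentation.fg_ker Φ hs
  have hSΦ : ∀ r ∈ S, Φ r = 0 := by
    intro r hr
    rw [← LinearMap.mem_ker, ← hS]
    exact Submodule.subset_span hr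
  refine ⟨S, fun r hr => ?_, ?_⟩
  · have := congrArg Subtype.val (hSΦ r hr)
    exact this
  · intro M _ _ c hc
    let Ψ : (ι → RR G) →ₗ[RR G] M :=
      { toFun := fun r => ∑ i, r i • c i
        map_add' := fun x y => by
          rw [← Finset.sum_add_distrib]
          exact Finset.sum_congr rfl fun i _ => add_smul _ _ _
        map_smul' := fun x y => by
          rw [RingHom.id_apply, Finset.smul_sum]
          exact Finset.sum_congr rfl fun i _ => mul_smul _ _ _ }
    have hle : LinearMap.ker Φ ≤ LinearMap.ker Ψ := by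
      rw [← hS, Submodule.span_le]
      intro r hr
      exact LinearMap.mem_ker.2 (hc r hr)
    let ψ : IG G →ₗ[RR G] M :=
      (LinearMap.ker Φ).liftQ Ψ hle ∘ₗ (LinearMap.quotKerEquivOfSurjective Φ hs).symm.toLinearMap
    have hψ : ∀ r, ψ (Φ r) = Ψ r := by
      intro r
      have h1 : (LinearMap.quotKerEquivOfSurjective Φ hs).symm (Φ r) =
          (LinearMap.ker Φ).mkQ r := by
        rw [LinearEquiv.symm_apply_eq]
        rfl
      change (LinearMap.ker Φ).liftQ Ψ hle
        ((LinearMap.quotKerEquivOfSurjective Φ hs).symm (Φ r)) = Ψ r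
      rw [h1]
      rfl
    refine ⟨fun g => ψ ⟨gof g - 1, of_sub_one_mem g⟩, ?_, ?_⟩
    · intro g h
      change ψ _ = ψ _ + gof g • ψ _
      rw [← map_smul, ← map_add]
      congr 1
      apply Subtype.ext
      change gof (g * h) - 1 = (gof g - 1) + gof g * (gof h - 1)
      rw [gof_mul, mul_sub, mul_one]
      abel
    · intro i
      have h1 : (⟨gof (a i) - 1, of_sub_one_mem (a i)⟩ : IG G) = Φ (Pi.single i 1) := by
        apply Subtype.ext
        change gof (a i) - 1 = ∑ j, (Pi.single i 1 : ι → RR G) j * (gof (a j) - 1)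
        rw [Finset.sum_eq_single i]
        · rw [Pi.single_eq_same, one_mul]
        · intro j _ hj
          rw [Pi.single_eq_of_ne hj, zero_mul]
        · intro h
          exact absurd (Finset.mem_univ i) h
      change ψ _ = _
      rw [h1, hψ]
      change ∑ j, (Pi.single i 1 : ι → RR G) j • c j = c i
      rw [Finset.sum_eq_single i]
      · rw [Pi.single_eq_same, one_smul]
      · intro j _ hj
        rw [Pi.single_eq_of_ne hj, zero_smul]
      · intro h
        exact absurd (Finset.mem_univ i) h

/-- the map from the group ring to the coset module -/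
def cos (H : Subgroup G) : RR G →+ ((G ⧸ H) →₀ ℤ) :=
  addR (fun g => Finsupp.single (g : G ⧸ H) 1)

theorem cos_of (H : Subgroup G) (g : G) : cos H (gof g) = Finsupp.single (g : G ⧸ H) 1 :=
  addR_of _ _

theorem cos_mul_sub (H : Subgroup G) (x : RR G) {h : G} (hh : h ∈ H) :
    cos H (x * (gof h - 1)) = 0 := by
  induction x using rr_ind with
  | h1 g =>
    rw [mul_sub, mul_one, ← gof_mul, map_sub, cos_of, cos_of]
    have : ((g * h : G) : G ⧸ H) = (g : G ⧸ H) := by
      rw [QuotientGroup.eq]
      have : (g * h)⁻¹ * g = h⁻¹ := by group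
      rw [this]
      exact inv_mem hh
    rw [this, sub_self]
  | h2 a b ha hb => rw [add_mul, map_add, ha, hb, add_zero]
  | h3 a ha => rw [neg_mul, map_neg, ha, neg_zero]

/-- finitely generated -/
theorem fg_of_fp (hfp : Module.FinitePresentation (RR G) (IG G)) : Group.FG G := by
  classical
  have h1 : (IG G).FG := Module.Finite.iff_fg.1 inferInstance
  rw [IG_eq_span, Submodule.fg_span_iff_fg_span_finset_subset] at h1
  obtain ⟨T, hT1, hT2⟩ := h1
  choose g hg using fun x : T => hT1 x.2
  let H := Subgroup.closure (Set.range g)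
  have hker : ∀ x ∈ IG G, cos H x = 0 := by
    intro x hx
    rw [IG_eq_span, hT2] at hx
    induction hx using Submodule.span_induction with
    | mem x hx =>
      have h2 : gof (g ⟨x, hx⟩) - 1 = x := hg ⟨x, hx⟩
      rw [← h2, ← one_mul (gof (g ⟨x, hx⟩) - 1)]
      exact cos_mul_sub H 1 (Subgroup.subset_closure ⟨_, rfl⟩)
    | zero => exact map_zero _
    | add x y _ _ hx hy => rw [map_add, hx, hy, add_zero]
    | smul c x hx' hx =>
      have h3 : ∀ c x : RR G, x ∈ Submodule.span (RR G) (T : Set (RR G)) → cos H (c * x) = 0 := by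
        intro c x hx
        induction hx using Submodule.span_induction generalizing c with
        | mem x hx =>
          have h2 : gof (g ⟨x, hx⟩) - 1 = x := hg ⟨x, hx⟩
          rw [← h2]
          exact cos_mul_sub H c (Subgroup.subset_closure ⟨_, rfl⟩)
        | zero => rw [mul_zero, map_zero]
        | add x y _ _ hx hy => rw [mul_add, map_add, hx, hy, add_zero]
        | smul c' x _ hx => rw [smul_eq_mul, ← mul_assoc, hx]
      exact h3 c x hx'
  have hH : H = ⊤ := by
    rw [eq_top_iff]
    intro x _
    have h2 := hker _ (of_sub_one_mem x)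
    rw [map_sub, ← gof_one, cos_of, cos_of, sub_eq_zero] at h2
    have h3 := (Finsupp.single_left_inj (one_ne_zero)).1 h2
    rw [eq_comm, QuotientGroup.eq, inv_one, one_mul] at h3
    exact h3
  rw [Group.fg_iff]
  exact ⟨Set.range g, hH, Set.finite_range g⟩

end

end Pool.Agent.H832.TA
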