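import Pool.Agent.H832.TA.Der

/-!
The derivation which counts the crossings of the edges of a tree.
-/

namespace Pool.Agent.H832.TA

open Pool.Agent.Helper386.PD3
open scoped Matrix

noncomputable section

variable {G : Type} [Group G]

/-- translation on coset functions -/
def tr (E : Subgroup G) (g : G) : ((G ⧸ E) →₀ ℤ) →+ ((G ⧸ E) →₀ ℤ) :=
  Finsupp.mapDomain.addMonoidHom (fun y => g • y)

theorem tr_single (E : Subgroup G) (g h : G) (c : ℤ) :
    tr E g (Finsupp.single (h : G ⧸ E) c) = Finsupp.single ((g * h : G) : G ⧸ E) c :=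
  Finsupp.mapDomain_single

theorem tr_one (E : Subgroup G) (f : (G ⧸ E) →₀ ℤ) : tr E 1 f = f := by
  change Finsupp.mapDomain (fun y => (1 : G) • y) f = f
  simp only [one_smul]
  exact Finsupp.mapDomain_id

theorem tr_tr (E : Subgroup G) (g h : G) (f : (G ⧸ E) →₀ ℤ) :
    tr E g (tr E h f) = tr E (g * h) f := by
  change Finsupp.mapDomain _ (Finsupp.mapDomain _ f) = Finsupp.mapDomain _ f
  rw [← Finsupp.mapDomain_comp]
  congr 1
  funext y
  exact (mul_smul g h y).symm

theorem tr_apply (E : Subgroup G) (g : G) (f : (G ⧸ E) →₀ ℤ) (y : G ⧸ E) :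
    tr E g f y = f (g⁻¹ • y) := by
  have h : Function.Injective (fun y : G ⧸ E => g • y) := MulAction.injective g
  have : y = (fun y : G ⧸ E => g • y) (g⁻¹ • y) := by simp
  conv_lhs => rw [this]
  exact Finsupp.mapDomain_apply h f (g⁻¹ • y)

theorem cos_of_mul (E : Subgroup G) (g : G) (x : RR G) : cos E (gof g * x) = tr E g (cos E x) := by
  induction x using rr_ind with
  | h1 h => rw [← gof_mul, cos_of, cos_of, tr_single]
  | h2 a b ha hb => rw [mul_add, map_add, ha, hb, map_add, map_add]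
  | h3 a ha => rw [mul_neg, map_neg, ha, map_neg, map_neg]

/-- the left ideal of the elements which vanish in the coset module -/
def JJ (E : Subgroup G) : Submodule (RR G) (RR G) where
  carrier := {x | cos E x = 0}
  add_mem' := by
    intro x y hx hy
    change cos E (x + y) = 0
    rw [map_add, show cos E x = 0 from hx, show cos E y = 0 from hy, add_zero]
  zero_mem' := map_zero _
  smul_mem' := by
    intro c x hx
    change cos E (c * x) = 0
    have hx : cos E x = 0 := hx
    induction c using rr_ind with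
    | h1 g => rw [cos_of_mul, hx, map_zero]
    | h2 a b ha hb => rw [add_mul, map_add, ha, hb, add_zero]
    | h3 a ha => rw [neg_mul, map_neg, ha, neg_zero]

theorem mem_JJ {E : Subgroup G} {x : RR G} : x ∈ JJ E ↔ cos E x = 0 := Iff.rfl

/-- the coset module -/
abbrev CM (E : Subgroup G) : Type := RR G ⧸ JJ E

/-- its elements as functions -/
def cm (E : Subgroup G) : CM E →+ ((G ⧸ E) →₀ ℤ) :=
  QuotientAddGroup.lift (JJ E).toAddSubgroup (cos E) (fun _ hx => hx)

theorem cm_mk (E : Subgroup G) (x : RR G) : cm E (Submodule.Quotient.mk x) = cos E x := rfl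

theorem cm_smul (E : Subgroup G) (g : G) (m : CM E) : cm E (gof g • m) = tr E g (cm E m) := by
  obtain ⟨x, rfl⟩ := Submodule.Quotient.mk_surjective _ m
  rw [← Submodule.Quotient.mk_smul, cm_mk, cm_mk, smul_eq_mul, cos_of_mul]

/-- derivations with values in coset functions -/
def CD (E : Subgroup G) (F : G → ((G ⧸ E) →₀ ℤ)) : Prop := ∀ g h, F (g * h) = F g + tr E g (F h)

theorem CD.one {E : Subgroup G} {F : G → ((G ⧸ E) →₀ ℤ)} (h : CD E F) : F 1 = 0 := by
  have := h 1 1
  rw [mul_one, tr_one] at this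
  simpa using this

theorem CD.inv {E : Subgroup G} {F : G → ((G ⧸ E) →₀ ℤ)} (h : CD E F) (g : G) :
    F g⁻¹ = -tr E g⁻¹ (F g) := by
  have := h g⁻¹ g
  rw [inv_mul_cancel, h.one] at this
  exact eq_neg_of_add_eq_zero_left this.symm

/-- the kernel is a subgroup -/
def CD.ker {E : Subgroup G} {F : G → ((G ⧸ E) →₀ ℤ)} (h : CD E F) : Subgroup G where
  carrier := {g | F g = 0}
  one_mem' := h.one
  mul_mem' := by
    intro a b ha hb
    change F (a * b) = 0
    rw [h, show F a = 0 from ha, show F b = 0 from hb, map_zero, add_zero]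
  inv_mem' := by
    intro a ha
    change F a⁻¹ = 0
    rw [h.inv, show F a = 0 from ha, map_zero, neg_zero]

theorem exists_CD {E : Subgroup G} {ι : Type} [Fintype ι] {a : ι → G}
    {S : Finset (ι → RR G)} (hS : ∀ (M : Type) [AddCommGroup M] [Module (RR G) M] (c : ι → M),
        (∀ r ∈ S, ∑ i, r i • c i = 0) → ∃ δ : G → M, IsD δ ∧ ∀ i, δ (a i) = c i)
    (c : ι → RR G) (hc : ∀ r ∈ S, cos E (∑ i, r i * c i) = 0) :
    ∃ F : G → ((G ⧸ E) →₀ ℤ), CD E F ∧ ∀ i, F (a i) = cos E (c i) := by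
  obtain ⟨δ, h1, h2⟩ := hS (CM E) (fun i => Submodule.Quotient.mk (c i)) (by
    intro r hr
    have h1 : ∑ i, r i • (Submodule.Quotient.mk (c i) : CM E) =
        Submodule.Quotient.mk (∑ i, r i * c i) := by
      change _ = (JJ E).mkQ _
      rw [map_sum]
      rfl
    rw [h1, Submodule.Quotient.mk_eq_zero]
    exact hc r hr)
  refine ⟨fun g => cm E (δ g), ?_, ?_⟩
  · intro g h
    change cm E (δ (g * h)) = _
    rw [h1, map_add, cm_smul]
  · intro i
    change cm E (δ (a i)) = _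
    rw [h2, cm_mk]

/-- finite support, uniformly in the subgroup -/
theorem exists_supp (x : RR G) : ∃ T : Finset G, ∀ (E : Subgroup G) (y : G ⧸ E),
    y ∈ (cos E x).support → ∃ g ∈ T, y = (g : G ⧸ E) := by
  classical
  induction x using rr_ind with
  | h1 g =>
    refine ⟨{g}, fun E y hy => ⟨g, Finset.mem_singleton_self g, ?_⟩⟩
    rw [cos_of] at hy
    have := Finsupp.support_single_subset hy
    exact Finset.mem_singleton.1 this
  | h2 a b ha hb =>
    obtain ⟨T, hT⟩ := ha
    obtain ⟨T', hT'⟩ := hb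
    refine ⟨T ∪ T', fun E y hy => ?_⟩
    rw [map_add] at hy
    rcases Finset.mem_union.1 (Finsupp.support_add hy) with h | h
    · obtain ⟨g, hg, hy⟩ := hT E y h
      exact ⟨g, Finset.mem_union_left _ hg, hy⟩
    · obtain ⟨g, hg, hy⟩ := hT' E y h
      exact ⟨g, Finset.mem_union_right _ hg, hy⟩
  | h3 a ha =>
    obtain ⟨T, hT⟩ := ha
    refine ⟨T, fun E y hy => hT E y ?_⟩
    rw [map_neg, Finsupp.support_neg] at hy
    exact hy

/-- the projection between coset spaces -/
def pr {E B : Subgroup G} (h : E ≤ B) : G ⧸ E → G ⧸ B :=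
  Quotient.map' id (fun a b hab => by
    rw [QuotientGroup.leftRel_apply] at hab ⊢
    exact h hab)

theorem pr_mk {E B : Subgroup G} (h : E ≤ B) (g : G) : pr h (g : G ⧸ E) = (g : G ⧸ B) := rfl

theorem mapDomain_pr {E B : Subgroup G} (h : E ≤ B) (x : RR G) :
    Finsupp.mapDomain (pr h) (cos E x) = cos B x := by
  induction x using rr_ind with
  | h1 g => rw [cos_of, cos_of, Finsupp.mapDomain_single, pr_mk]
  | h2 a b ha hb => rw [map_add, Finsupp.mapDomain_add, ha, hb, map_add]
  | h3 a ha =>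
    have := (Finsupp.mapDomain.addMonoidHom (M := ℤ) (pr h)).map_neg (cos E a)
    change Finsupp.mapDomain (pr h) (-(cos E a)) = -Finsupp.mapDomain (pr h) (cos E a) at this
    rw [map_neg, this, ha, map_neg]

/-- vanishing over a directed union -/
theorem exists_cos_eq_zero (E : ℕ → Subgroup G) (hE : Monotone E) {B : Subgroup G}
    (hB : ∀ x ∈ B, ∃ N, x ∈ E N) (hle : ∀ N, E N ≤ B) (x : RR G) (hx : cos B x = 0) :
    ∃ N, ∀ M, N ≤ M → cos (E M) x = 0 := by
  classical
  obtain ⟨T, hT⟩ := exists_supp x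
  have h1 : ∀ p : G × G, ∃ N, p.1⁻¹ * p.2 ∈ B → p.1⁻¹ * p.2 ∈ E N := by
    intro p
    by_cases h : p.1⁻¹ * p.2 ∈ B
    · obtain ⟨N, hN⟩ := hB _ h
      exact ⟨N, fun _ => hN⟩
    · exact ⟨0, fun h' => absurd h' h⟩
  choose n hn using h1
  refine ⟨(T ×ˢ T).sup n, fun M hM => ?_⟩
  have hinj : Set.InjOn (pr (hle M)) ((fun g : G => (g : G ⧸ E M)) '' (T : Set G)) := by
    rintro _ ⟨g, hg, rfl⟩ _ ⟨g', hg', rfl⟩ h
    simp only [pr_mk] at h
    rw [QuotientGroup.eq] at h
    change (g : G ⧸ E M) = (g' : G ⧸ E M)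
    rw [QuotientGroup.eq]
    have h2 : n (g, g') ≤ (T ×ˢ T).sup n := Finset.le_sup (Finset.mem_product.2 ⟨hg, hg'⟩)
    exact hE (h2.trans hM) (hn (g, g') h)
  have h3 := Finsupp.mapDomain_injOn (M := ℤ) _ hinj
  apply h3
  · intro y hy
    obtain ⟨g, hg, rfl⟩ := hT _ _ hy
    exact ⟨g, hg, rfl⟩
  · intro y hy
    simp at hy
  · rw [mapDomain_pr, hx, Finsupp.mapDomain_zero]

theorem exists_cos_eq_zero' (E : ℕ → Subgroup G) (hE : Monotone E) {B : Subgroup G}
    (hB : ∀ x ∈ B, ∃ N, x ∈ E N) (hle : ∀ N, E N ≤ B) (X : Finset (RR G))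
    (hx : ∀ x ∈ X, cos B x = 0) : ∃ N, ∀ x ∈ X, cos (E N) x = 0 := by
  classical
  have h1 : ∀ x : RR G, ∃ N, x ∈ X → ∀ M, N ≤ M → cos (E M) x = 0 := by
    intro x
    by_cases h : x ∈ X
    · obtain ⟨N, hN⟩ := exists_cos_eq_zero E hE hB hle x (hx x h)
      exact ⟨N, fun _ => hN⟩
    · exact ⟨0, fun h' => absurd h' h⟩
  choose n hn using h1
  exact ⟨X.sup n, fun x hxX => hn x hxX _ (Finset.le_sup hxX)⟩

/-- shifting down -/
theorem shift_zero {B : Subgroup G} (τ : G ⧸ B → G ⧸ B) (ht : G ⧸ B → ℤ)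
    (hτ : ∀ y, ht (τ y) = ht y - 1) (f : (G ⧸ B) →₀ ℤ) (hf : Finsupp.mapDomain τ f = f) :
    f = 0 := by
  classical
  by_contra hne
  obtain ⟨y, hy, hmax⟩ := f.support.exists_max_image ht (Finsupp.support_nonempty_iff.2 hne)
  have h1 : y ∈ (Finsupp.mapDomain τ f).support := by rwa [hf]
  obtain ⟨z, hz, rfl⟩ := Finset.mem_image.1 (Finsupp.mapDomain_support h1)
  have h2 := hmax z hz
  rw [hτ] at h2
  omega

/-- the key vanishing -/
theorem cos_rel_zero (χ : G →* Multiplicative ℤ) (t : G) (hχt : χ t = Multiplicative.ofAdd 1)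
    (B : Subgroup G) (hBχ : ∀ x ∈ B, χ x = 1) (htB : ∀ x ∈ B, t * x * t⁻¹ ∈ B) (u : RR G)
    (hu : cos B (u * (gof t - 1)) = 0) : cos B (u * gof t) = 0 := by
  let τ : G ⧸ B → G ⧸ B := Quotient.map' (fun g => g * t⁻¹) (fun a b hab => by
    rw [QuotientGroup.leftRel_apply] at hab ⊢
    have : (a * t⁻¹)⁻¹ * (b * t⁻¹) = t * (a⁻¹ * b) * t⁻¹ := by group
    rw [this]
    exact htB _ hab)
  have hτ : ∀ g : G, τ (g : G ⧸ B) = ((g * t⁻¹ : G) : G ⧸ B) := fun g => rfl
  let ht : G ⧸ B → ℤ := fun y => Quotient.liftOn' y (fun g => Multiplicative.toAdd (χ g))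
    (fun a b hab => by
      rw [QuotientGroup.leftRel_apply] at hab
      have h1 := hBχ _ hab
      rw [map_mul, map_inv, inv_mul_eq_one] at h1
      change Multiplicative.toAdd (χ a) = Multiplicative.toAdd (χ b)
      rw [h1])
  have hht : ∀ g : G, ht (g : G ⧸ B) = Multiplicative.toAdd (χ g) := fun g => rfl
  have h1 : cos B (u * gof t) = cos B u := by
    rw [mul_sub, mul_one, map_sub, sub_eq_zero] at hu
    exact hu
  have h2 : ∀ x : RR G, Finsupp.mapDomain τ (cos B (x * gof t)) = cos B x := by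
    intro x
    induction x using rr_ind with
    | h1 g => rw [← gof_mul, cos_of, cos_of, Finsupp.mapDomain_single, hτ, mul_inv_cancel_right]
    | h2 a b ha hb => rw [add_mul, map_add, Finsupp.mapDomain_add, ha, hb, map_add]
    | h3 a ha =>
      have := (Finsupp.mapDomain.addMonoidHom (M := ℤ) τ).map_neg (cos B (a * gof t))
      change Finsupp.mapDomain τ (-(cos B (a * gof t))) =
        -Finsupp.mapDomain τ (cos B (a * gof t)) at this
      rw [neg_mul, map_neg, this, ha, map_neg]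
  apply shift_zero τ ht
  · intro y
    induction y using QuotientGroup.induction_on with
    | H g =>
      rw [hτ, hht, hht, map_mul, map_inv, hχt]
      rfl
  · rw [h2, h1]

end

end Pool.Agent.H832.TA
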