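import Pool.Graph.R_seed8.Helper386.PD3.Core

/-!
Groups with the low part of a finite type resolution: the augmentation ideal is finitely
presented, hence derivations can be prescribed on generators subject to finitely many relations.
-/

namespace Pool.Agent.H832.TA

open Pool.Agent.Helper386.PD3
open scoped Matrix

noncomputable section

variable {G : Type} [Group G] {n : ℕ}

/-- the augmentation ideal -/
def IG (G : Type) [Group G] : Submodule (RR G) (RR G) where
  carrier := {x | eps x = 0}
  add_mem' := by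
    intro x y hx hy
    rw [Set.mem_setOf_eq] at *
    rw [map_add, hx, hy, add_zero]
  zero_mem' := map_zero _
  smul_mem' := by
    intro c x hx
    rw [Set.mem_setOf_eq] at *
    rw [smul_eq_mul, map_mul, hx, mul_zero]

theorem mem_IG {x : RR G} : x ∈ IG G ↔ eps x = 0 := Iff.rfl

theorem of_sub_one_mem (g : G) : gof g - 1 ∈ IG G := by
  rw [mem_IG, map_sub, eps_of, map_one, sub_self]

/-- `IG` is spanned by the differences `g - 1` -/
theorem IG_eq_span : IG G = Submodule.span (RR G) (Set.range fun g : G => gof g - 1) := by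
  apply le_antisymm
  · intro x hx
    have key : ∀ y : RR G, y - (eps y : RR G) ∈
        Submodule.span (RR G) (Set.range fun g : G => gof g - 1) := by
      intro y
      induction y using rr_ind with
      | h1 g =>
        rw [eps_of, Int.cast_one]
        exact Submodule.subset_span ⟨g, rfl⟩
      | h2 a b ha hb =>
        have e : a + b - ((eps (a + b) : ℤ) : RR G) = (a - (eps a : RR G)) + (b - (eps b : RR G)) := by
          rw [map_add, Int.cast_add]
          abel
        rw [e]
        exact add_mem ha hb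
      | h3 a ha =>
        have e : -a - ((eps (-a) : ℤ) : RR G) = -(a - (eps a : RR G)) := by
          rw [map_neg, Int.cast_neg]
          abel
        rw [e]
        exact neg_mem ha
    have h1 := key x
    rw [mem_IG.1 hx, Int.cast_zero, sub_zero] at h1
    exact h1
  · rw [Submodule.span_le]
    rintro _ ⟨g, rfl⟩
    exact of_sub_one_mem g

theorem fp_IG {e0 e1 e2 d0 d1 : MR G n} (hL : Low e0 e1 e2 d0 d1) :
    Module.FinitePresentation (RR G) (IG G) := by
  obtain ⟨ε, hε, ⟨u0, hu0, hεu0⟩, hεd, hεex⟩ := hL.aug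
  let F := Fin n → RR G
  have hrr : ∀ (r : RR G) (v : F), ε (r • v) = eps r * ε v := eps_eq hε
  -- the kernel of the augmentation
  let M1 : Submodule (RR G) F :=
    { carrier := {v | v ᵥ* e0 = v ∧ ε v = 0}
      add_mem' := by
        rintro a b ⟨ha, ha'⟩ ⟨hb, hb'⟩
        exact ⟨by rw [Matrix.add_vecMul, ha, hb], by rw [map_add, ha', hb', add_zero]⟩
      zero_mem' := ⟨by rw [Matrix.zero_vecMul], map_zero _⟩
      smul_mem' := by
        rintro c a ⟨ha, ha'⟩
        exact ⟨by rw [Matrix.smul_vecMul, ha], by rw [hrr, ha', mul_zero]⟩ }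
  -- multiplication by matrices from the right
  let R (A : MR G n) : F →ₗ[RR G] F :=
    { toFun := fun v => v ᵥ* A
      map_add' := fun a b => Matrix.add_vecMul A a b
      map_smul' := fun c a => Matrix.smul_vecMul c a A }
  have hRv : ∀ (A : MR G n) (v : F), R A v = v ᵥ* A := fun _ _ => rfl
  have hM1d : ∀ v, R d0 v ∈ M1 := by
    intro v
    refine ⟨?_, hεd v⟩
    rw [hRv, Matrix.vecMul_vecMul, hL.d0e0]
  let f : F →ₗ[RR G] M1 := (R d0).codRestrict M1 hM1d
  have hfs : Function.Surjective f := by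
    rintro ⟨u, hu, hu'⟩
    obtain ⟨v, hv⟩ := hεex u hu hu'
    exact ⟨v, Subtype.ext hv⟩
  have hker : LinearMap.ker f = LinearMap.range (R d1) ⊔ LinearMap.range (R (1 - e1)) := by
    apply le_antisymm
    · intro v hv
      have hv' : v ᵥ* d0 = 0 := congrArg Subtype.val (LinearMap.mem_ker.1 hv)
      have h1 : (v ᵥ* e1) ᵥ* e1 = v ᵥ* e1 := by
        rw [Matrix.vecMul_vecMul, hL.ee1]
      have h2 : (v ᵥ* e1) ᵥ* d0 = 0 := by
        rw [Matrix.vecMul_vecMul, hL.e1d0, hv']
      obtain ⟨u, hu⟩ := hL.ex1 _ h1 h2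
      have h3 : v = R d1 u + R (1 - e1) v := by
        rw [hRv, hRv, hu, Matrix.vecMul_sub, Matrix.vecMul_one]
        abel
      rw [h3]
      exact Submodule.add_mem_sup ⟨u, rfl⟩ ⟨v, rfl⟩
    · refine sup_le ?_ ?_
      · rintro _ ⟨u, rfl⟩
        rw [LinearMap.mem_ker]
        apply Subtype.ext
        change (u ᵥ* d1) ᵥ* d0 = 0
        rw [Matrix.vecMul_vecMul, hL.dd, Matrix.vecMul_zero]
      · rintro _ ⟨u, rfl⟩
        rw [LinearMap.mem_ker]
        apply Subtype.ext
        change (u ᵥ* (1 - e1)) ᵥ* d0 = 0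
        rw [Matrix.vecMul_vecMul, sub_mul, one_mul, hL.e1d0, sub_self, Matrix.vecMul_zero]
  have hfg1 : (LinearMap.ker f).FG := by
    rw [hker]
    exact Submodule.FG.sup (Module.Finite.iff_fg.1 inferInstance)
      (Module.Finite.iff_fg.1 inferInstance)
  haveI : Module.FinitePresentation (RR G) M1 :=
    Module.finitePresentation_of_surjective f hfs hfg1
  -- Schanuel
  let β : F →ₗ[RR G] RR G :=
    { toFun := fun v => ∑ i, v i * ((ε (Pi.single i 1) : ℤ) : RR G)
      map_add' := fun a b => by
        rw [← Finset.sum_add_distrib]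
        exact Finset.sum_congr rfl fun i _ => add_mul _ _ _
      map_smul' := fun c a => by
        rw [RingHom.id_apply, smul_eq_mul, Finset.mul_sum]
        exact Finset.sum_congr rfl fun i _ => mul_assoc _ _ _ }
  have hβ : ∀ v, eps (β v) = ε v := by
    intro v
    have h1 : v = ∑ i, v i • (Pi.single i (1 : RR G) : Fin n → RR G) := by
      funext k
      rw [Finset.sum_apply, Finset.sum_eq_single k]
      · simp
      · intro i _ hi
        rw [Pi.smul_apply, Pi.single_eq_of_ne (Ne.symm hi), smul_zero]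
      · intro h
        exact absurd (Finset.mem_univ k) h
    conv_rhs => rw [h1, map_sum]
    change eps (∑ i, v i * ((ε (Pi.single i 1) : ℤ) : RR G)) = _
    rw [map_sum]
    refine Finset.sum_congr rfl fun i _ => ?_
    rw [hrr, map_mul, map_intCast]
    rfl
  let π0 : (M1 × RR G) →ₗ[RR G] RR G :=
    LinearMap.snd (RR G) M1 (RR G) - β ∘ₗ (M1.subtype ∘ₗ LinearMap.fst (RR G) M1 (RR G) +
      (LinearMap.toSpanSingleton (RR G) F u0) ∘ₗ LinearMap.snd (RR G) M1 (RR G))
  have hπ0 : ∀ v x, π0 (v, x) = x - β (v.1 + x • u0) := fun v x => rfl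
  have hπm : ∀ p, π0 p ∈ IG G := by
    rintro ⟨v, x⟩
    rw [hπ0, mem_IG, map_sub, hβ, map_add, v.2.2, zero_add, hrr, hεu0, mul_one, sub_self]
  let π : (M1 × RR G) →ₗ[RR G] IG G := π0.codRestrict (IG G) hπm
  have hπs : Function.Surjective π := by
    rintro ⟨y, hy⟩
    have h1 : -(y • u0) ∈ M1 := by
      refine ⟨?_, ?_⟩
      · rw [Matrix.neg_vecMul, Matrix.smul_vecMul, hu0]
      · rw [map_neg, hrr, mem_IG.1 hy, zero_mul, neg_zero]
    refine ⟨(⟨-(y • u0), h1⟩, y), Subtype.ext ?_⟩
    change π0 (⟨-(y • u0), h1⟩, y) = y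
    rw [hπ0, neg_add_cancel, map_zero, sub_zero]
  -- its kernel
  have hval : ∀ v : F, R e0 v - β (R e0 v) • u0 ∈ M1 := by
    intro v
    refine ⟨?_, ?_⟩
    · rw [Matrix.sub_vecMul, Matrix.smul_vecMul, hu0, hRv, Matrix.vecMul_vecMul, hL.ee0]
    · rw [map_sub, hrr, hεu0, mul_one, hβ, sub_self]
  let κ : F →ₗ[RR G] (M1 × RR G) :=
    LinearMap.prod
      ((R e0 - (LinearMap.toSpanSingleton (RR G) F u0) ∘ₗ β ∘ₗ R e0).codRestrict M1 hval)
      (β ∘ₗ R e0)
  have hfg2 : (LinearMap.ker π).FG := by
    have : LinearMap.ker π = LinearMap.range κ := by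
      apply le_antisymm
      · rintro ⟨v, x⟩ hp
        have h1 : x - β (v.1 + x • u0) = 0 := congrArg Subtype.val (LinearMap.mem_ker.1 hp)
        have h2 : β (v.1 + x • u0) = x := (sub_eq_zero.1 h1).symm
        have h3 : R e0 (v.1 + x • u0) = v.1 + x • u0 := by
          rw [hRv, Matrix.add_vecMul, Matrix.smul_vecMul, hu0, v.2.1]
        refine ⟨v.1 + x • u0, ?_⟩
        refine Prod.ext (Subtype.ext ?_) ?_
        · change R e0 (v.1 + x • u0) - β (R e0 (v.1 + x • u0)) • u0 = v.1
          rw [h3, h2, add_sub_cancel_right]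
        · change β (R e0 (v.1 + x • u0)) = x
          rw [h3, h2]
      · rintro _ ⟨v, rfl⟩
        rw [LinearMap.mem_ker]
        apply Subtype.ext
        change β (R e0 v) - β ((R e0 v - β (R e0 v) • u0) + β (R e0 v) • u0) = 0
        rw [sub_add_cancel, sub_self]
    rw [this]
    exact Module.Finite.iff_fg.1 inferInstance
  exact Module.finitePresentation_of_surjective π hπs hfg2

end

end Pool.Agent.H832.TA
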