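import Pool.Agent.H832.TA.Split

/-!
Restriction of a resolution and its dual to a subgroup of finite index.
-/

namespace Pool.Agent.H832.TA

open Pool.Agent.Helper386.PD3
open scoped Matrix

set_option linter.unusedSectionVars false

noncomputable section

variable {G : Type} [Group G] (H : Subgroup G)

/-- right cosets -/
abbrev RC : Type := Quotient (QuotientGroup.rightRel H)

/-- index of the right coset -/
def ix (g : G) : RC H := Quotient.mk'' g

/-- representatives -/
def rp (j : RC H) : G := Quotient.out j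

theorem ix_rp (j : RC H) : ix H (rp H j) = j := Quotient.out_eq' j

theorem ix_eq {a b : G} : ix H a = ix H b ↔ b * a⁻¹ ∈ H := by
  rw [ix, ix, Quotient.eq'', QuotientGroup.rightRel_apply]

theorem mem_cc (g : G) : g * (rp H (ix H g))⁻¹ ∈ H := by
  rw [← ix_eq, ix_rp]

/-- the component in the subgroup -/
def cc (g : G) : H := ⟨g * (rp H (ix H g))⁻¹, mem_cc H g⟩

theorem cc_mul_rp (g : G) : (cc H g : G) * rp H (ix H g) = g := by
  rw [cc]
  group

theorem ix_mul (h : H) (g : G) : ix H (h * g) = ix H g := by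
  rw [ix_eq]
  have : g * ((h : G) * g)⁻¹ = ((h⁻¹ : H) : G) := by
    rw [mul_inv_rev, mul_inv_cancel_left]
    rfl
  rw [this]
  exact (h⁻¹).2

theorem cc_mul (h : H) (g : G) : cc H (h * g) = h * cc H g := by
  apply Subtype.ext
  change (h : G) * g * (rp H (ix H (h * g)))⁻¹ = (h : G) * (g * (rp H (ix H g))⁻¹)
  rw [ix_mul, mul_assoc]

theorem cc_rp (j : RC H) : cc H (rp H j) = 1 := by
  apply Subtype.ext
  change rp H j * (rp H (ix H (rp H j)))⁻¹ = 1
  rw [ix_rp, mul_inv_cancel]

/-- inclusion of group rings -/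
def inc' : RR H →+* RR G := liftR (A := RR G) ((MonoidAlgebra.of ℤ G).comp H.subtype)

theorem inc_of (h : H) : inc' H (gof h) = gof (h : G) := liftR_of _ _

variable [DecidableEq (RC H)]

/-- coordinates -/
def Th : RR G →+ (RC H → RR H) := addR fun g => Pi.single (ix H g) (gof (cc H g))

theorem Th_of (g : G) : Th H (gof g) = Pi.single (ix H g) (gof (cc H g)) := addR_of _ _

theorem Th_of_mul (h : H) (x : RR G) : Th H (gof (h : G) * x) = gof h • Th H x := by
  induction x using rr_ind with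
  | h1 g =>
    rw [← gof_mul, Th_of, Th_of, ix_mul, cc_mul, gof_mul]
    funext j
    rw [Pi.smul_apply, smul_eq_mul]
    by_cases hj : j = ix H g
    · subst hj
      rw [Pi.single_eq_same, Pi.single_eq_same]
    · rw [Pi.single_eq_of_ne hj, Pi.single_eq_of_ne hj, mul_zero]
  | h2 a b ha hb => rw [mul_add, map_add, ha, hb, map_add, smul_add]
  | h3 a ha => rw [mul_neg, map_neg, ha, map_neg, smul_neg]

variable [Fintype (RC H)]

/-- right multiplication by a group element -/
def rhoG : G →* Matrix (RC H) (RC H) (RR H) where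
  toFun g := fun j => Pi.single (ix H (rp H j * g)) (gof (cc H (rp H j * g)))
  map_one' := by
    funext j l
    change (Pi.single (ix H (rp H j * 1)) (gof (cc H (rp H j * 1))) : RC H → RR H) l =
      (1 : Matrix (RC H) (RC H) (RR H)) j l
    rw [mul_one, ix_rp, cc_rp, gof_one]
    by_cases h : l = j
    · subst h
      rw [Pi.single_eq_same, Matrix.one_apply_eq]
    · rw [Pi.single_eq_of_ne h, Matrix.one_apply_ne (Ne.symm h)]
  map_mul' g g' := by
    funext j m
    change (Pi.single (ix H (rp H j * (g * g'))) (gof (cc H (rp H j * (g * g')))) :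
        RC H → RR H) m =
      ∑ l, (Pi.single (ix H (rp H j * g)) (gof (cc H (rp H j * g))) : RC H → RR H) l *
        (Pi.single (ix H (rp H l * g')) (gof (cc H (rp H l * g'))) : RC H → RR H) m
    rw [Finset.sum_eq_single (ix H (rp H j * g))]
    · rw [Pi.single_eq_same]
      have e : rp H j * (g * g') = (cc H (rp H j * g) : G) * (rp H (ix H (rp H j * g)) * g') := by
        rw [← mul_assoc, ← mul_assoc, cc_mul_rp]
      rw [e, ix_mul, cc_mul, gof_mul]
      by_cases h : m = ix H (rp H (ix H (rp H j * g)) * g')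
      · subst h
        rw [Pi.single_eq_same, Pi.single_eq_same]
      · rw [Pi.single_eq_of_ne h, Pi.single_eq_of_ne h, mul_zero]
    · intro l _ hl
      rw [Pi.single_eq_of_ne hl, zero_mul]
    · intro h
      exact absurd (Finset.mem_univ _) h

/-- right multiplication -/
def rho' : RR G →+* Matrix (RC H) (RC H) (RR H) := liftR (rhoG H)

theorem rho_of (g : G) (j : RC H) : rho' H (gof g) j =
    Pi.single (ix H (rp H j * g)) (gof (cc H (rp H j * g))) := by
  rw [rho', liftR_of]
  rfl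

theorem Th_mul (x y : RR G) : Th H (x * y) = Th H x ᵥ* rho' H y := by
  induction x using rr_ind with
  | h1 g =>
    induction y using rr_ind with
    | h1 g' =>
      rw [← gof_mul, Th_of, Th_of]
      funext m
      change _ = ∑ l, (Pi.single (ix H g) (gof (cc H g)) : RC H → RR H) l * rho' H (gof g') l m
      rw [Finset.sum_eq_single (ix H g)]
      · rw [Pi.single_eq_same, rho_of]
        have e : g * g' = (cc H g : G) * (rp H (ix H g) * g') := by
          rw [← mul_assoc, cc_mul_rp]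
        rw [e, ix_mul, cc_mul, gof_mul]
        by_cases h : m = ix H (rp H (ix H g) * g')
        · subst h
          rw [Pi.single_eq_same, Pi.single_eq_same]
        · rw [Pi.single_eq_of_ne h, Pi.single_eq_of_ne h, mul_zero]
      · intro l _ hl
        rw [Pi.single_eq_of_ne hl, zero_mul]
      · intro h
        exact absurd (Finset.mem_univ _) h
    | h2 a b ha hb => rw [mul_add, map_add, ha, hb, map_add, Matrix.vecMul_add]
    | h3 a ha => rw [mul_neg, map_neg, ha, map_neg, Matrix.vecMul_neg]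
  | h2 a b ha hb => rw [add_mul, map_add, ha, hb, map_add, Matrix.add_vecMul]
  | h3 a ha => rw [neg_mul, map_neg, ha, map_neg, Matrix.neg_vecMul]

/-- the inverse of the coordinates -/
def La (x : RC H → RR H) : RR G := ∑ j, inc' H (x j) * gof (rp H j)

theorem La_add (x y : RC H → RR H) : La H (x + y) = La H x + La H y := by
  rw [La, La, La, ← Finset.sum_add_distrib]
  refine Finset.sum_congr rfl fun j _ => ?_
  rw [Pi.add_apply, map_add, add_mul]

theorem La_neg (x : RC H → RR H) : La H (-x) = -La H x := by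
  rw [La, La, ← Finset.sum_neg_distrib]
  refine Finset.sum_congr rfl fun j _ => ?_
  rw [Pi.neg_apply, map_neg, neg_mul]

theorem La_Th (x : RR G) : La H (Th H x) = x := by
  induction x using rr_ind with
  | h1 g =>
    rw [Th_of, La, Finset.sum_eq_single (ix H g)]
    · rw [Pi.single_eq_same, inc_of, ← gof_mul, cc_mul_rp]
    · intro l _ hl
      rw [Pi.single_eq_of_ne hl, map_zero, zero_mul]
    · intro h
      exact absurd (Finset.mem_univ _) h
  | h2 a b ha hb => rw [map_add, La_add, ha, hb]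
  | h3 a ha => rw [map_neg, La_neg, ha]

theorem Th_La (x : RC H → RR H) : Th H (La H x) = x := by
  have h1 : ∀ (j : RC H) (a : RR H), Th H (inc' H a * gof (rp H j)) = Pi.single j a := by
    intro j a
    induction a using rr_ind with
    | h1 h =>
      rw [inc_of, Th_of_mul, Th_of, ix_rp, cc_rp, gof_one]
      funext l
      rw [Pi.smul_apply, smul_eq_mul]
      by_cases hl : l = j
      · subst hl
        rw [Pi.single_eq_same, Pi.single_eq_same, mul_one]
      · rw [Pi.single_eq_of_ne hl, Pi.single_eq_of_ne hl, mul_zero]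
    | h2 a b ha hb => rw [map_add, add_mul, map_add, ha, hb, Pi.single_add]
    | h3 a ha => rw [map_neg, neg_mul, map_neg, ha, Pi.single_neg]
  rw [La, map_sum]
  simp only [h1]
  exact Finset.univ_sum_single x

variable {n N : ℕ} (e : Fin n × RC H ≃ Fin N)

/-- vectors -/
def TV (v : Fin n → RR G) : Fin N → RR H := fun a => Th H (v (e.symm a).1) (e.symm a).2

/-- matrices -/
def RM (M : MR G n) : MR H N :=
  fun a b => rho' H (M (e.symm a).1 (e.symm b).1) (e.symm a).2 (e.symm b).2

variable {H e}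

theorem TV_add (v v' : Fin n → RR G) : TV H e (v + v') = TV H e v + TV H e v' := by
  funext a
  change Th H (v _ + v' _) _ = _
  rw [map_add]
  rfl

theorem TV_zero : TV H e (0 : Fin n → RR G) = 0 := by
  funext a
  change Th H 0 _ = _
  rw [map_zero]
  rfl

theorem TV_smul (h : H) (v : Fin n → RR G) : TV H e (gof (h : G) • v) = gof h • TV H e v := by
  funext a
  change Th H (gof (h : G) * v _) _ = _
  rw [Th_of_mul]
  rfl

theorem TV_vecMul (v : Fin n → RR G) (M : MR G n) : TV H e (v ᵥ* M) = TV H e v ᵥ* RM H e M := by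
  funext b
  change Th H (∑ i, v i * M i (e.symm b).1) (e.symm b).2 =
    ∑ a, Th H (v (e.symm a).1) (e.symm a).2 *
      rho' H (M (e.symm a).1 (e.symm b).1) (e.symm a).2 (e.symm b).2
  rw [map_sum, Finset.sum_apply]
  rw [← Equiv.sum_comp e, Fintype.sum_prod_type]
  refine Finset.sum_congr rfl fun i _ => ?_
  rw [Th_mul]
  change ∑ j, _ = _
  refine Finset.sum_congr rfl fun j _ => ?_
  rw [Equiv.symm_apply_apply]

theorem RM_mul (M M' : MR G n) : RM H e (M * M') = RM H e M * RM H e M' := by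
  funext a b
  change rho' H (∑ i, M (e.symm a).1 i * M' i (e.symm b).1) (e.symm a).2 (e.symm b).2 =
    ∑ c, rho' H (M (e.symm a).1 (e.symm c).1) (e.symm a).2 (e.symm c).2 *
      rho' H (M' (e.symm c).1 (e.symm b).1) (e.symm c).2 (e.symm b).2
  rw [map_sum, Matrix.sum_apply]
  rw [← Equiv.sum_comp e, Fintype.sum_prod_type]
  refine Finset.sum_congr rfl fun i _ => ?_
  rw [map_mul, Matrix.mul_apply]
  refine Finset.sum_congr rfl fun j _ => ?_
  rw [Equiv.symm_apply_apply]

theorem RM_zero : RM H e (0 : MR G n) = 0 := by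
  funext a b
  change rho' H 0 _ _ = 0
  rw [map_zero]
  rfl

theorem TV_surj (v : Fin N → RR H) : ∃ u : Fin n → RR G, TV H e u = v := by
  refine ⟨fun i => La H fun j => v (e (i, j)), ?_⟩
  funext a
  change Th H (La H fun j => v (e ((e.symm a).1, j))) (e.symm a).2 = v a
  rw [Th_La]
  rw [Prod.mk.eta, Equiv.apply_symm_apply]

theorem TV_inj {u v : Fin n → RR G} (h : TV H e u = TV H e v) : u = v := by
  funext i
  rw [← La_Th H (u i), ← La_Th H (v i)]
  congr 1
  funext j
  have := congrFun h (e (i, j))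
  change Th H (u (e.symm (e (i, j))).1) (e.symm (e (i, j))).2 =
    Th H (v (e.symm (e (i, j))).1) (e.symm (e (i, j))).2 at this
  rwa [Equiv.symm_apply_apply] at this

theorem Low.res {e0 e1 e2 d0 d1 : MR G n} (h : Low e0 e1 e2 d0 d1) :
    Low (RM H e e0) (RM H e e1) (RM H e e2) (RM H e d0) (RM H e d1) where
  ee0 := by rw [← RM_mul, h.ee0]
  ee1 := by rw [← RM_mul, h.ee1]
  ee2 := by rw [← RM_mul, h.ee2]
  e1d0 := by rw [← RM_mul, h.e1d0]
  d0e0 := by rw [← RM_mul, h.d0e0]
  e2d1 := by rw [← RM_mul, h.e2d1]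
  d1e1 := by rw [← RM_mul, h.d1e1]
  dd := by rw [← RM_mul, h.dd, RM_zero]
  aug := by
    obtain ⟨ε, hε, ⟨u, hu, hεu⟩, hεd, hεex⟩ := h.aug
    choose iv hiv using TV_surj (H := H) (e := e) (n := n)
    have hiv' : ∀ v, iv (TV H e v) = v := fun v => TV_inj (hiv _)
    refine ⟨⟨⟨fun v => ε (iv v), ?_⟩, ?_⟩, ?_, ⟨TV H e u, ?_, ?_⟩, ?_, ?_⟩
    · have : iv 0 = 0 := by
        apply TV_inj (H := H) (e := e)
        rw [hiv, TV_zero]
      rw [this, map_zero]
    · intro x y
      change ε (iv (x + y)) = ε (iv x) + ε (iv y)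
      rw [← map_add]
      congr 1
      apply TV_inj (H := H) (e := e)
      rw [hiv, TV_add, hiv, hiv]
    · intro g v
      change ε (iv (gof g • v)) = ε (iv v)
      rw [← hε (g : G) (iv v)]
      congr 1
      apply TV_inj (H := H) (e := e)
      rw [hiv, TV_smul, hiv]
    · rw [← TV_vecMul, hu]
    · change ε (iv (TV H e u)) = 1
      rw [hiv', hεu]
    · intro v
      change ε (iv (v ᵥ* RM H e d0)) = 0
      rw [← hiv v, ← TV_vecMul, hiv', hεd]
    · intro v hv hεv
      change ε (iv v) = 0 at hεv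
      obtain ⟨x, hx⟩ := hεex (iv v) (by
        apply TV_inj (H := H) (e := e)
        rw [TV_vecMul, hiv, hv]) hεv
      refine ⟨TV H e x, ?_⟩
      rw [← TV_vecMul, hx, hiv]
  ex1 := by
    intro v hv hv0
    obtain ⟨x, rfl⟩ := TV_surj (H := H) (e := e) v
    rw [← TV_vecMul] at hv hv0
    obtain ⟨u, hu⟩ := h.ex1 x (TV_inj hv) (TV_inj (hv0.trans TV_zero.symm))
    exact ⟨TV H e u, by rw [← TV_vecMul, hu]⟩

omit H [DecidableEq (RC H)] [Fintype (RC H)] in
/-- conjugation by an involution matrix -/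
theorem Low.conj {e0 e1 e2 d0 d1 D : MR G n} (h : Low e0 e1 e2 d0 d1) (hD : D * D = 1) :
    Low (D * e0 * D) (D * e1 * D) (D * e2 * D) (D * d0 * D) (D * d1 * D) := by
  have key : ∀ a b : MR G n, D * a * D * (D * b * D) = D * (a * b) * D := by
    intro a b
    calc D * a * D * (D * b * D) = D * a * (D * D) * b * D := by simp only [mul_assoc]
      _ = D * (a * b) * D := by rw [hD, mul_one]; simp only [mul_assoc]
  have kv : ∀ (v : Fin n → RR G) (a : MR G n), v ᵥ* (D * a * D) = ((v ᵥ* D) ᵥ* a) ᵥ* D := by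
    intro v a
    rw [Matrix.vecMul_vecMul, Matrix.vecMul_vecMul, mul_assoc]
  have kd : ∀ v : Fin n → RR G, (v ᵥ* D) ᵥ* D = v := by
    intro v
    rw [Matrix.vecMul_vecMul, hD, Matrix.vecMul_one]
  obtain ⟨ε, hε, ⟨u, hu, hεu⟩, hεd, hεex⟩ := h.aug
  refine ⟨by rw [key, h.ee0], by rw [key, h.ee1], by rw [key, h.ee2], by rw [key, h.e1d0],
    by rw [key, h.d0e0], by rw [key, h.e2d1], by rw [key, h.d1e1],
    by rw [key, h.dd, mul_zero, zero_mul], ?_, ?_⟩
  · refine ⟨⟨⟨fun v => ε (v ᵥ* D), by rw [Matrix.zero_vecMul, map_zero]⟩, fun x y => by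
      change ε ((x + y) ᵥ* D) = ε (x ᵥ* D) + ε (y ᵥ* D)
      rw [Matrix.add_vecMul, map_add]⟩, ?_, ⟨u ᵥ* D, ?_, ?_⟩, ?_, ?_⟩
    · intro g v
      change ε ((gof g • v) ᵥ* D) = ε (v ᵥ* D)
      rw [Matrix.smul_vecMul, hε]
    · rw [kv, kd, hu]
    · change ε ((u ᵥ* D) ᵥ* D) = 1
      rw [kd, hεu]
    · intro v
      change ε ((v ᵥ* (D * d0 * D)) ᵥ* D) = 0
      rw [kv, kd, hεd]
    · intro v hv hεv
      change ε (v ᵥ* D) = 0 at hεv
      rw [kv] at hv
      have h1 : (v ᵥ* D) ᵥ* e0 = v ᵥ* D := by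
        conv_rhs => rw [← hv]
        rw [kd]
      obtain ⟨x, hx⟩ := hεex _ h1 hεv
      refine ⟨x ᵥ* D, ?_⟩
      rw [kv, kd, hx, kd]
  · intro v hv hv0
    rw [kv] at hv hv0
    have h1 : (v ᵥ* D) ᵥ* e1 = v ᵥ* D := by
      conv_rhs => rw [← hv]
      rw [kd]
    have h2 : (v ᵥ* D) ᵥ* d0 = 0 := by
      have := congrArg (fun x => x ᵥ* D) hv0
      simp only [kd, Matrix.zero_vecMul] at this
      exact this
    obtain ⟨x, hx⟩ := h.ex1 _ h1 h2
    refine ⟨x ᵥ* D, ?_⟩
    rw [kv, kd, hx, kd]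

/-- signs of the representatives -/
def Sg (H : Subgroup G) (w : G →* ℤˣ) (e : Fin n × RC H ≃ Fin N) : MR H N :=
  Matrix.diagonal fun a => ((((w (rp H (e.symm a).2) : ℤˣ) : ℤ)) : RR H)

theorem unit_sq (u : ℤˣ) : ((u : ℤ)) * (u : ℤ) = 1 := by
  rcases Int.units_eq_one_or u with h | h <;> simp [h]

theorem Sg_sq (w : G →* ℤˣ) : Sg H w e * Sg H w e = 1 := by
  rw [Sg, Matrix.diagonal_mul_diagonal, ← Matrix.diagonal_one]
  congr 1
  funext a
  rw [← Int.cast_mul, unit_sq, Int.cast_one]

theorem rho_dg (w : G →* ℤˣ) (x : RR G) (j l : RC H) :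
    rho' H (dg w x) j l = (((w (rp H j) : ℤˣ) : ℤ)) • (((w (rp H l) : ℤˣ) : ℤ)) •
      dg (w.comp H.subtype) (rho' H x l j) := by
  induction x using rr_ind with
  | h1 g =>
    rw [dg_of, map_zsmul, Matrix.smul_apply, rho_of, rho_of]
    by_cases h : j = ix H (rp H l * g)
    · have h1 : rp H j * g⁻¹ = ((cc H (rp H l * g))⁻¹ : H) * rp H l := by
        have := cc_mul_rp H (rp H l * g)
        rw [← h] at this
        have h2 : rp H j = ((cc H (rp H l * g))⁻¹ : H) * (rp H l * g) :=
          eq_inv_mul_of_mul_eq this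
        rw [h2]
        group
      have h3 : l = ix H (rp H j * g⁻¹) := by
        rw [h1, ix_mul, ix_rp]
      have h4 : cc H (rp H j * g⁻¹) = (cc H (rp H l * g))⁻¹ := by
        rw [h1, cc_mul, cc_rp, mul_one]
      rw [← h, ← h3, Pi.single_eq_same, Pi.single_eq_same, dg_of, h4, smul_smul, smul_smul]
      congr 1
      have h5 : (w (cc H (rp H l * g) : G) : ℤˣ) = w (rp H l) * w g * (w (rp H j))⁻¹ := by
        have := congrArg w (cc_mul_rp H (rp H l * g))
        rw [← h, map_mul, map_mul] at this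
        rw [← this, mul_inv_cancel_right]
      change ((w g : ℤˣ) : ℤ) = _ * ((w (cc H (rp H l * g) : G) : ℤˣ) : ℤ)
      rw [h5, Int.units_inv_eq_self, Units.val_mul, Units.val_mul]
      have e1 := unit_sq (w (rp H l))
      have e2 := unit_sq (w (rp H j))
      linear_combination (-(((w g : ℤˣ) : ℤ))) * e1 -
        ((w g : ℤˣ) : ℤ) * ((w (rp H l) : ℤˣ) : ℤ) * ((w (rp H l) : ℤˣ) : ℤ) * e2
    · have h3 : l ≠ ix H (rp H j * g⁻¹) := by
        intro h'
        apply h
        have := cc_mul_rp H (rp H j * g⁻¹)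
        rw [← h'] at this
        have h2 : rp H l * g = ((cc H (rp H j * g⁻¹))⁻¹ : H) * rp H j := by
          have h4 : rp H l = ((cc H (rp H j * g⁻¹))⁻¹ : H) * (rp H j * g⁻¹) :=
            eq_inv_mul_of_mul_eq this
          rw [h4]
          group
        rw [h2, ix_mul, ix_rp]
      rw [Pi.single_eq_of_ne h3, Pi.single_eq_of_ne h, dg_zero, smul_zero, smul_zero, smul_zero]
  | h2 a b ha hb =>
    rw [dg_add, map_add, Matrix.add_apply, ha, hb, map_add, Matrix.add_apply, dg_add, smul_add,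
      smul_add]
  | h3 a ha =>
    rw [dg_neg, map_neg, Matrix.neg_apply, ha, map_neg, Matrix.neg_apply, dg_neg, smul_neg,
      smul_neg]

theorem dgM_RM (w : G →* ℤˣ) (M : MR G n) :
    dgM (w.comp H.subtype) (RM H e M) = Sg H w e * RM H e (dgM w M) * Sg H w e := by
  funext a b
  rw [Sg, Matrix.mul_diagonal, Matrix.diagonal_mul]
  change dg (w.comp H.subtype) (rho' H (M (e.symm b).1 (e.symm a).1) (e.symm b).2 (e.symm a).2) =
    _ * rho' H (dg w (M (e.symm b).1 (e.symm a).1)) (e.symm a).2 (e.symm b).2 * _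
  rw [rho_dg, ← zsmul_eq_mul, ← zsmul_eq_mul', smul_smul, smul_smul, smul_smul]
  have e1 := unit_sq (w (rp H (e.symm a).2))
  have e2 := unit_sq (w (rp H (e.symm b).2))
  have h : ((w (rp H (e.symm b).2) : ℤˣ) : ℤ) * ((w (rp H (e.symm a).2) : ℤˣ) : ℤ) *
      ((w (rp H (e.symm a).2) : ℤˣ) : ℤ) * ((w (rp H (e.symm b).2) : ℤˣ) : ℤ) = 1 := by
    linear_combination ((w (rp H (e.symm b).2) : ℤˣ) : ℤ) * ((w (rp H (e.symm b).2) : ℤˣ) : ℤ) * e1
      + e2
  rw [h, one_smul]

theorem Full.res {w : G →* ℤˣ} {e0 e1 e2 e3 d0 d1 d2 : MR G n}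
    (h : Full w e0 e1 e2 e3 d0 d1 d2) :
    Full (w.comp H.subtype) (RM H e e0) (RM H e e1) (RM H e e2) (RM H e e3) (RM H e d0)
      (RM H e d1) (RM H e d2) where
  low := Low.res h.low
  colow := by
    rw [dgM_RM, dgM_RM, dgM_RM, dgM_RM, dgM_RM]
    exact Low.conj (Low.res h.colow) (Sg_sq w)

omit [DecidableEq (RC H)] [Fintype (RC H)] in
/-- Restriction to subgroups of finite index. -/
theorem exists_full_res (hH : H.FiniteIndex) {w : G →* ℤˣ} {e0 e1 e2 e3 d0 d1 d2 : MR G n}
    (h : Full w e0 e1 e2 e3 d0 d1 d2) :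
    ∃ (N : ℕ) (w' : H →* ℤˣ) (e0' e1' e2' e3' d0' d1' d2' : MR H N),
      Full w' e0' e1' e2' e3' d0' d1' d2' := by
  classical
  haveI : Finite (RC H) := by
    have h1 : Finite (G ⧸ H) := Subgroup.finite_quotient_of_finiteIndex
    exact Finite.of_equiv _ (QuotientGroup.quotientRightRelEquivQuotientLeftRel H).symm
  haveI : Fintype (RC H) := Fintype.ofFinite _
  exact ⟨_, _, _, _, _, _, _, _, _, Full.res (e := Fintype.equivFin (Fin n × RC H)) h⟩

end

end Pool.Agent.H832.TA
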