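import Pool.Agent.H832.TA.Brit
import Pool.Graph.R_seed8.Helper386.PD3.Fin

/-!
The splitting of a group with a homomorphism onto `ℤ`, and the dichotomy for `PD_3`-groups.
-/

namespace Pool.Agent.H832.TA

open Pool.Agent.Helper386.PD3
open scoped Matrix

noncomputable section

variable {G : Type} [Group G]

/-- the subgroup generated by the conjugates `t ^ j a t ^ -j`, `j ≤ N`, `a ∈ A` -/
def EE (t : G) (A : Set G) (N : ℕ) : Subgroup G :=
  Subgroup.closure {x | ∃ a ∈ A, ∃ j ≤ N, x = t ^ j * a * (t ^ j)⁻¹}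

/-- their union -/
def EI (t : G) (A : Set G) : Subgroup G :=
  Subgroup.closure {x | ∃ a ∈ A, ∃ j : ℕ, x = t ^ j * a * (t ^ j)⁻¹}

variable {t : G} {A : Set G}

theorem EE_mono : Monotone (EE t A) := by
  intro N M h
  apply Subgroup.closure_mono
  rintro x ⟨a, ha, j, hj, rfl⟩
  exact ⟨a, ha, j, hj.trans h, rfl⟩

theorem EE_le (N : ℕ) : EE t A N ≤ EI t A := by
  apply Subgroup.closure_mono
  rintro x ⟨a, ha, j, _, rfl⟩
  exact ⟨a, ha, j, rfl⟩

theorem EI_union {x : G} (hx : x ∈ EI t A) : ∃ N, x ∈ EE t A N := by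
  induction hx using Subgroup.closure_induction with
  | mem x hx =>
    obtain ⟨a, ha, j, rfl⟩ := hx
    exact ⟨j, Subgroup.subset_closure ⟨a, ha, j, le_rfl, rfl⟩⟩
  | one => exact ⟨0, one_mem _⟩
  | mul x y _ _ hx hy =>
    obtain ⟨N, hN⟩ := hx
    obtain ⟨M, hM⟩ := hy
    exact ⟨max N M, mul_mem (EE_mono (le_max_left N M) hN) (EE_mono (le_max_right N M) hM)⟩
  | inv x _ hx =>
    obtain ⟨N, hN⟩ := hx
    exact ⟨N, inv_mem hN⟩

theorem EE_conj (N : ℕ) : ∀ x ∈ EE t A N, t * x * t⁻¹ ∈ EE t A (N + 1) := by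
  intro x hx
  induction hx using Subgroup.closure_induction with
  | mem x hx =>
    obtain ⟨a, ha, j, hj, rfl⟩ := hx
    refine Subgroup.subset_closure ⟨a, ha, j + 1, by omega, ?_⟩
    rw [pow_succ']
    group
  | one => rw [mul_one, mul_inv_cancel]; exact one_mem _
  | mul x y _ _ hx hy =>
    have : t * (x * y) * t⁻¹ = (t * x * t⁻¹) * (t * y * t⁻¹) := by group
    rw [this]
    exact mul_mem hx hy
  | inv x _ hx =>
    have : t * x⁻¹ * t⁻¹ = (t * x * t⁻¹)⁻¹ := by group
    rw [this]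
    exact inv_mem hx

theorem EI_conj : ∀ x ∈ EI t A, t * x * t⁻¹ ∈ EI t A := by
  intro x hx
  obtain ⟨N, hN⟩ := EI_union hx
  exact EE_le _ (EE_conj N x hN)

theorem EE_fg (hA : A.Finite) (N : ℕ) : (EE t A N).FG := by
  rw [Subgroup.fg_iff]
  refine ⟨_, rfl, ?_⟩
  have : {x | ∃ a ∈ A, ∃ j ≤ N, x = t ^ j * a * (t ^ j)⁻¹} =
      Set.image2 (fun (a : G) (j : ℕ) => t ^ j * a * (t ^ j)⁻¹) A (Set.Iic N) := by
    ext x
    constructor
    · rintro ⟨a, ha, j, hj, rfl⟩
      exact ⟨a, ha, j, hj, rfl⟩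
    · rintro ⟨a, ha, j, hj, rfl⟩
      exact ⟨a, ha, j, hj, rfl⟩
  rw [this]
  exact hA.image2 _ (Set.finite_Iic N)

theorem EI_chi (χ : G →* Multiplicative ℤ) (hA : ∀ a ∈ A, χ a = 1) : ∀ x ∈ EI t A, χ x = 1 := by
  intro x hx
  induction hx using Subgroup.closure_induction with
  | mem x hx =>
    obtain ⟨a, ha, j, rfl⟩ := hx
    rw [map_mul, map_mul, map_inv, hA a ha, mul_one, mul_inv_cancel]
  | one => exact map_one χ
  | mul x y _ _ hx hy => rw [map_mul, hx, hy, one_mul]
  | inv x _ hx => rw [map_inv, hx, inv_one]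

theorem subset_EE (N : ℕ) {a : G} (ha : a ∈ A) : a ∈ EE t A N :=
  Subgroup.subset_closure ⟨a, ha, 0, Nat.zero_le _, by simp⟩

theorem EE_gen (hgen : Subgroup.closure (A ∪ {t}) = ⊤) (N : ℕ) :
    Subgroup.closure ((EE t A N : Set G) ∪ {t}) = ⊤ := by
  rw [eq_top_iff, ← hgen]
  apply Subgroup.closure_mono
  exact Set.union_subset_union_left _ fun a ha => subset_EE N ha

/-- For a group whose augmentation ideal is finitely presented the crossing derivation exists. -/
theorem exists_cross (hfp : Module.FinitePresentation (RR G) (IG G))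
    (χ : G →* Multiplicative ℤ) (hχt : χ t = Multiplicative.ofAdd 1)
    {m : ℕ} (a : Fin m → G) (haχ : ∀ i, χ (a i) = 1)
    (hgen : Subgroup.closure (Set.range a ∪ {t}) = ⊤) :
    ∃ (N : ℕ) (F : G → ((G ⧸ EE t (Set.range a) N) →₀ ℤ)),
      Cross t (EE t (Set.range a) N) (EE t (Set.range a) (N + 1)) F := by
  classical
  let A : Set G := Set.range a
  let g : Option (Fin m) → G := fun o => o.elim t a
  have hg : Subgroup.closure (Set.range g) = ⊤ := by
    rw [← hgen]
    congr 1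
    ext x
    constructor
    · rintro ⟨o, rfl⟩
      cases o with
      | none => exact Or.inr rfl
      | some i => exact Or.inl ⟨i, rfl⟩
    · rintro (⟨i, rfl⟩ | hx)
      · exact ⟨some i, rfl⟩
      · exact ⟨none, (Set.mem_singleton_iff.1 hx).symm⟩
  obtain ⟨S, hS1, hS2⟩ := exists_rel hfp g hg
  -- the values
  let c : Option (Fin m) → RR G := fun o => o.elim (gof t) (fun _ => 0)
  have hsum : ∀ r : Option (Fin m) → RR G, ∑ i, r i * c i = r none * gof t := by
    intro r
    rw [Fintype.sum_option]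
    change r none * gof t + ∑ i, r (some i) * 0 = _
    simp
  have hinf : ∀ r ∈ S, cos (EI t A) (r none * gof t) = 0 := by
    intro r hr
    apply cos_rel_zero χ t hχt (EI t A)
      (EI_chi χ (by rintro _ ⟨i, rfl⟩; exact haχ i)) EI_conj
    have h1 := hS1 r hr
    rw [Fintype.sum_option] at h1
    have h2 := congrArg (cos (EI t A)) h1
    rw [map_zero, map_add, map_sum] at h2
    have h3 : ∀ i, cos (EI t A) (r (some i) * (gof (g (some i)) - 1)) = 0 := by
      intro i
      exact cos_mul_sub _ _ (EE_le 0 (subset_EE 0 ⟨i, rfl⟩))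
    rw [Finset.sum_eq_zero (fun i _ => h3 i), add_zero] at h2
    exact h2
  obtain ⟨N, hN⟩ := exists_cos_eq_zero' (EE t A) EE_mono (fun x hx => EI_union hx) EE_le
    (S.image fun r => r none * gof t) (by
      intro x hx
      obtain ⟨r, hr, rfl⟩ := Finset.mem_image.1 hx
      exact hinf r hr)
  obtain ⟨F, hF1, hF2⟩ := exists_CD (E := EE t A N) hS2 c (by
    intro r hr
    rw [hsum]
    exact hN _ (Finset.mem_image_of_mem _ hr))
  have hFt : F t = Finsupp.single (t : G ⧸ EE t A N) 1 := by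
    have := hF2 none
    change F t = cos _ (gof t) at this
    rw [this, cos_of]
  have hFa : ∀ i, F (a i) = 0 := by
    intro i
    have := hF2 (some i)
    change F (a i) = cos _ 0 at this
    rw [this, map_zero]
  have hFti : F t⁻¹ = -Finsupp.single ((1 : G) : G ⧸ EE t A N) 1 := by
    rw [hF1.inv, hFt, tr_single, inv_mul_cancel]
  have key : ∀ i, ∀ j ≤ N + 1, F (t ^ j * a i * (t ^ j)⁻¹) = 0 := by
    intro i j
    induction j with
    | zero =>
      intro _
      rw [pow_zero, one_mul, inv_one, mul_one]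
      exact hFa i
    | succ j ih =>
      intro hj
      have h1 := ih (by omega)
      have h2 : t ^ j * a i * (t ^ j)⁻¹ ∈ EE t A N :=
        Subgroup.subset_closure ⟨a i, ⟨i, rfl⟩, j, by omega, rfl⟩
      have h3 : t ^ (j + 1) * a i * (t ^ (j + 1))⁻¹ = t * (t ^ j * a i * (t ^ j)⁻¹) * t⁻¹ := by
        rw [pow_succ']
        group
      rw [h3, hF1, hF1, h1, map_zero, add_zero, hFt, hFti, map_neg, tr_single, mul_one,
        add_neg_eq_zero]
      congr 1
      rw [QuotientGroup.eq, inv_mul_cancel_left]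
      exact h2
  refine ⟨N, F, EE_mono (Nat.le_succ N), EE_conj N, hF1, hFt, ?_⟩
  intro x hx
  have h1 : EE t A (N + 1) ≤ hF1.ker := by
    rw [EE, Subgroup.closure_le]
    rintro _ ⟨_, ⟨i, rfl⟩, j, hj, rfl⟩
    exact key i j hj
  exact h1 hx

/-- a subgroup normalised by `t` -/
theorem ker_eq_of_norm (χ : G →* Multiplicative ℤ) (hχt : χ t = Multiplicative.ofAdd 1)
    (E : Subgroup G) (hEχ : ∀ x ∈ E, χ x = 1) (hgen : Subgroup.closure ((E : Set G) ∪ {t}) = ⊤)
    (h1 : ∀ x ∈ E, t * x * t⁻¹ ∈ E) (h2 : ∀ x ∈ E, t⁻¹ * x * t ∈ E) : χ.ker = E := by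
  apply le_antisymm
  · intro x hx
    have hpow : ∀ k : ℤ, ∀ x ∈ E, t ^ k * x * (t ^ k)⁻¹ ∈ E := by
      intro k
      induction k with
      | zero =>
        intro x hx
        simpa using hx
      | succ k ih =>
        intro x hx
        have e : t ^ ((k : ℤ) + 1) * x * (t ^ ((k : ℤ) + 1))⁻¹ =
            t * (t ^ (k : ℤ) * x * (t ^ (k : ℤ))⁻¹) * t⁻¹ := by
          rw [zpow_add_one]
          have : t ^ (k : ℤ) * t = t * t ^ (k : ℤ) := (Commute.zpow_self t k).eq
          rw [this]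
          group
        rw [e]
        exact h1 _ (ih x hx)
      | pred k ih =>
        intro x hx
        have e : t ^ (-(k : ℤ) - 1) * x * (t ^ (-(k : ℤ) - 1))⁻¹ =
            t⁻¹ * (t ^ (-(k : ℤ)) * x * (t ^ (-(k : ℤ)))⁻¹) * t := by
          have : t ^ (-(k : ℤ) - 1) = t⁻¹ * t ^ (-(k : ℤ)) := by
            rw [sub_eq_neg_add, zpow_add, zpow_neg_one]
          rw [this]
          group
        rw [e]
        exact h2 _ (ih x hx)
    have key : ∀ g : G, ∃ e ∈ E, ∃ k : ℤ, g = e * t ^ k := by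
      intro g
      have hg : g ∈ Subgroup.closure ((E : Set G) ∪ {t}) := by
        rw [hgen]
        trivial
      induction hg using Subgroup.closure_induction with
      | mem x hx =>
        rcases hx with hx | hx
        · exact ⟨x, hx, 0, by simp⟩
        · exact ⟨1, one_mem _, 1, by rw [Set.mem_singleton_iff.1 hx]; simp⟩
      | one => exact ⟨1, one_mem _, 0, by simp⟩
      | mul x y _ _ hx hy =>
        obtain ⟨e, he, k, rfl⟩ := hx
        obtain ⟨e', he', k', rfl⟩ := hy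
        refine ⟨e * (t ^ k * e' * (t ^ k)⁻¹), mul_mem he (hpow k _ he'), k + k', ?_⟩
        rw [zpow_add]
        group
      | inv x _ hx =>
        obtain ⟨e, he, k, rfl⟩ := hx
        refine ⟨t ^ (-k) * e⁻¹ * (t ^ (-k))⁻¹, hpow (-k) _ (inv_mem he), -k, ?_⟩
        group
    obtain ⟨e, he, k, rfl⟩ := key x
    have h3 : χ (e * t ^ k) = 1 := hx
    rw [map_mul, hEχ e he, one_mul, map_zpow, hχt, ← ofAdd_zsmul] at h3
    have h4 : k = 0 := by
      have := Multiplicative.ofAdd.injective (h3.trans ofAdd_zero.symm)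
      simpa using this
    rw [h4, zpow_zero, mul_one]
    exact he
  · intro x hx
    exact hEχ x hx

/-- The dichotomy, for groups with a resolution of length three and its dual. -/
theorem dichotomy {n : ℕ} {w : G →* ℤˣ} {e0 e1 e2 e3 d0 d1 d2 : MR G n}
    (hF : Full w e0 e1 e2 e3 d0 d1 d2) (χ : G →* Multiplicative ℤ) (hχ : Function.Surjective χ)
    (hK : ∀ f : FreeGroup Bool →* χ.ker, ¬ Function.Injective f) : χ.ker.FG := by
  classical
  have hfp := fp_IG hF.low
  obtain ⟨S, hS⟩ := (fg_of_fp hfp).1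
  obtain ⟨t, hχt⟩ := hχ (Multiplicative.ofAdd 1)
  let s : Fin S.card → G := fun i => (S.equivFin.symm i : G)
  let a : Fin S.card → G := fun i => s i * (t ^ (Multiplicative.toAdd (χ (s i))))⁻¹
  have haχ : ∀ i, χ (a i) = 1 := by
    intro i
    change χ (s i * (t ^ (Multiplicative.toAdd (χ (s i))))⁻¹) = 1
    rw [map_mul, map_inv, map_zpow, hχt, ← ofAdd_zsmul]
    simp
  have hgen : Subgroup.closure (Set.range a ∪ {t}) = ⊤ := by
    rw [eq_top_iff, ← hS, Subgroup.closure_le]
    intro x hx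
    let i : Fin S.card := S.equivFin ⟨x, hx⟩
    have hi : s i = x := by simp [s, i]
    have h1 : a i ∈ Subgroup.closure (Set.range a ∪ {t}) :=
      Subgroup.subset_closure (Or.inl ⟨i, rfl⟩)
    have h2 : t ∈ Subgroup.closure (Set.range a ∪ {t}) := Subgroup.subset_closure (Or.inr rfl)
    have h3 : x = a i * t ^ (Multiplicative.toAdd (χ (s i))) := by
      change x = s i * (t ^ (Multiplicative.toAdd (χ (s i))))⁻¹ * t ^ _
      rw [hi]
      group
    change x ∈ Subgroup.closure (Set.range a ∪ {t})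
    rw [h3]
    exact mul_mem h1 (zpow_mem h2 _)
  obtain ⟨N, F, hC⟩ := exists_cross hfp χ hχt a haχ hgen
  set E := EE t (Set.range a) N with hE
  set B := EE t (Set.range a) (N + 1) with hB
  have hEfg : E.FG := EE_fg (Set.finite_range a) N
  have hχA : ∀ x ∈ Set.range a, χ x = 1 := by
    rintro _ ⟨i, rfl⟩
    exact haχ i
  have hEχ : ∀ x ∈ E, χ x = 1 := fun x hx => EI_chi χ hχA x (EE_le N hx)
  have hBχ : ∀ x ∈ B, χ x = 1 := fun x hx => EI_chi χ hχA x (EE_le (N + 1) hx)
  have hgenE : Subgroup.closure ((E : Set G) ∪ {t}) = ⊤ := EE_gen hgen N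
  by_cases h1 : B ≤ E
  · -- ascending
    have h2 : ∀ x ∈ E, t * x * t⁻¹ ∈ E := fun x hx => h1 (hC.conj x hx)
    have h3 := core hF E hEfg t hgenE h2 χ hEχ hχt
    rw [ker_eq_of_norm χ hχt E hEχ hgenE h2 h3]
    exact hEfg
  by_cases h2 : ∀ x ∈ B, t⁻¹ * x * t ∈ E
  · -- descending
    have h3 : ∀ x ∈ E, t⁻¹ * x * t ∈ E := fun x hx => h2 x (hC.le hx)
    have hgenE' : Subgroup.closure ((E : Set G) ∪ {t⁻¹}) = ⊤ := by
      rw [eq_top_iff, ← hgenE, Subgroup.closure_le]
      rintro x (hx | hx)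
      · exact Subgroup.subset_closure (Or.inl hx)
      · rw [Set.mem_singleton_iff.1 hx]
        have : (t⁻¹)⁻¹ ∈ Subgroup.closure ((E : Set G) ∪ {t⁻¹}) :=
          inv_mem (Subgroup.subset_closure (Or.inr rfl))
        rwa [inv_inv] at this
    have h4 := core hF E hEfg t⁻¹ hgenE' (by
      intro x hx
      rw [inv_inv]
      exact h3 x hx) χ⁻¹ (by
      intro x hx
      rw [MonoidHom.inv_apply, hEχ x hx, inv_one]) (by
      rw [MonoidHom.inv_apply, map_inv, hχt, inv_inv])
    have h5 : ∀ x ∈ E, t * x * t⁻¹ ∈ E := by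
      intro x hx
      have := h4 x hx
      rwa [inv_inv] at this
    rw [ker_eq_of_norm χ hχt E hEχ hgenE h5 h3]
    exact hEfg
  -- free subgroups
  exfalso
  obtain ⟨b, hbB, hb⟩ := Set.not_subset.1 h1
  push Not at h2
  obtain ⟨c, hcB, hc⟩ := h2
  have hfree := hC.free (b := b) (c := c) hbB hcB hb hc
  have hUV : ∀ i, UV t b c i ∈ χ.ker := by
    intro i
    rw [MonoidHom.mem_ker]
    cases i
    · change χ (t⁻¹ * c * t * b) = 1
      rw [map_mul, map_mul, map_mul, map_inv, hBχ c hcB, hBχ b hbB]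
      simp
    · change χ (t * b * t⁻¹ * c) = 1
      rw [map_mul, map_mul, map_mul, map_inv, hBχ c hcB, hBχ b hbB]
      simp
  apply hK (FreeGroup.lift fun i => (⟨UV t b c i, hUV i⟩ : χ.ker))
  have h6 : ∀ x, ((FreeGroup.lift fun i => (⟨UV t b c i, hUV i⟩ : χ.ker)) x : G) =
      FreeGroup.lift (UV t b c) x := by
    intro x
    have : (χ.ker.subtype.comp (FreeGroup.lift fun i => (⟨UV t b c i, hUV i⟩ : χ.ker))) =
        FreeGroup.lift (UV t b c) := by
      ext i
      simp
    exact DFunLike.congr_fun this x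
  intro x y hxy
  apply hfree
  rw [← h6, ← h6, hxy]

end

end Pool.Agent.H832.TA
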